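import Mathlib

set_option autoImplicit false

open Polynomial Filter Topology

namespace Pool.Agent.Lib_helper65.QUI

/-- coordinates of the powers of `x` in `1, x, .., x^4`. -/
theorem coords {K : Type*} [Field K] [NumberField K] (hd : Module.finrank ℚ K = 5) (x : K) :
    ∃ a : ℕ → ℕ → ℚ, (∀ n, x ^ n = ∑ j ∈ Finset.range 5, (a n j : K) * x ^ j) ∧
      (∀ n j, n < 5 → a n j = if n = j then 1 else 0) := by
  classical
  set f : ℚ[X] := (Algebra.lmul ℚ K x).charpoly with hf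
  have hmon : f.Monic := LinearMap.charpoly_monic _
  have hdeg : f.natDegree = 5 := by rw [hf, LinearMap.charpoly_natDegree, hd]
  have hroot : aeval x f = 0 := by
    have h1 := LinearMap.aeval_self_charpoly (Algebra.lmul ℚ K x)
    have h2 : (aeval (Algebra.lmul ℚ K x) f) = Algebra.lmul ℚ K (aeval x f) := by
      rw [← aeval_algHom_apply]
    rw [← hf, h2] at h1
    have h3 := congrArg (fun g => g (1:K)) h1
    simpa using h3
  refine ⟨fun n j => (X ^ n %ₘ f).coeff j, fun n => ?_, fun n j hn => ?_⟩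
  · have h1 : aeval x (X ^ n %ₘ f) = x ^ n := by
      rw [aeval_modByMonic_eq_self_of_root hroot]; simp
    have h2 : (X ^ n %ₘ f).natDegree < 5 := by
      have := natDegree_modByMonic_lt (X ^ n : ℚ[X]) hmon (by intro h; rw [h] at hdeg; simp at hdeg)
      omega
    rw [← h1, aeval_eq_sum_range' h2]
    refine Finset.sum_congr rfl fun j _ => ?_
    rw [Algebra.smul_def]; rfl
  · have h1 : (X ^ n %ₘ f : ℚ[X]) = X ^ n := by
      rw [modByMonic_eq_self_iff hmon, degree_X_pow, degree_eq_natDegree hmon.ne_zero, hdeg]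
      exact_mod_cast hn
    simp only [h1, coeff_X_pow]
    by_cases h : n = j <;> simp [h, eq_comm]

/-- the `j`-th coordinate of `F(k x)` in the basis of the powers of `k x`, as a polynomial
in `k`. -/
noncomputable def cf (a : ℕ → ℕ → ℚ) (F : ℚ[X]) (j : ℕ) : ℚ[X] :=
  ∑ n ∈ Finset.range 20, C (F.coeff n * a n j) * X ^ (n - j)

theorem cf_spec {K : Type*} [Field K] [CharZero K] (x : K) (a : ℕ → ℕ → ℚ)
    (ha : ∀ n, x ^ n = ∑ j ∈ Finset.range 5, (a n j : K) * x ^ j)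
    (ha' : ∀ n j, n < 5 → a n j = if n = j then 1 else 0) (F : ℚ[X]) (hF : F.natDegree < 20)
    (k : ℚ) : aeval ((k : K) * x) F =
      ∑ j ∈ Finset.range 5, (((cf a F j).eval k : ℚ) : K) * ((k : K) * x) ^ j := by
  rw [aeval_eq_sum_range' hF]
  have h1 : ∀ n ∈ Finset.range 20, F.coeff n • ((k : K) * x) ^ n =
      ∑ j ∈ Finset.range 5, (((F.coeff n * a n j) * k ^ (n - j) : ℚ) : K) * ((k : K) * x) ^ j := by
    intro n _
    rw [Algebra.smul_def, mul_pow, ha n, Finset.mul_sum, Finset.mul_sum]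
    refine Finset.sum_congr rfl fun j hj => ?_
    have hj5 : j < 5 := Finset.mem_range.mp hj
    have h2 : a n j * k ^ n = a n j * k ^ (n - j) * k ^ j := by
      by_cases hnj : j ≤ n
      · rw [mul_assoc, ← pow_add, Nat.sub_add_cancel hnj]
      · have : a n j = 0 := by
          rw [ha' n j (by omega), if_neg (by omega)]
        simp [this]
    have h3 : ((a n j * k ^ n : ℚ) : K) = ((a n j * k ^ (n - j) * k ^ j : ℚ) : K) := by rw [h2]
    push_cast at h3 ⊢
    have h4 : (algebraMap ℚ K) (F.coeff n) = (F.coeff n : K) := rfl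
    rw [h4, mul_pow]
    linear_combination ((F.coeff n : K) * x ^ j) * h3
  rw [Finset.sum_congr rfl h1, Finset.sum_comm]
  refine Finset.sum_congr rfl fun j _ => ?_
  rw [← Finset.sum_mul]
  congr 1
  simp only [cf, eval_finsetSum, eval_mul, eval_C, eval_pow, eval_X]
  push_cast
  rfl

theorem cf_zero (a : ℕ → ℕ → ℚ) (ha' : ∀ n j, n < 5 → a n j = if n = j then 1 else 0)
    (F : ℚ[X]) (j : ℕ) (hj : j < 5) : (cf a F j).eval 0 = F.coeff j := by
  simp only [cf, eval_finsetSum, eval_mul, eval_C, eval_pow, eval_X]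
  rw [Finset.sum_eq_single j]
  · rw [ha' j j hj]; simp
  · intro n _ hn
    by_cases h : n < j
    · rw [ha' n j (by omega), if_neg hn]; simp
    · rw [zero_pow (by omega)]; simp
  · intro h; exact absurd (Finset.mem_range.mpr (by omega)) h


section data
variable (p l u c : ℚ)

/-- `1 - p X^2` -/
noncomputable def qq : ℚ[X] := 1 - C p * X ^ 2
/-- the numerator of `t` -/
noncomputable def Tn : ℚ[X] := X + C u * X ^ 2
/-- `s` -/
noncomputable def Sp : ℚ[X] := X + C (1 + p) * X ^ 2 + C (3 * p) * X ^ 3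
  + C (2 * p * (1 + p) - l) * X ^ 4
/-- the numerator of `s - t` -/
noncomputable def Dn : ℚ[X] := Sp p l * qq p - Tn u

/-- the six polynomials -/
noncomputable def FF : ℕ → ℚ[X]
  | 0 => qq p ^ 2
  | 1 => Tn u * qq p
  | 2 => Dn p l u * qq p
  | 3 => Tn u * Dn p l u
  | 4 => Dn p l u ^ 2
  | _ => Tn u ^ 2

theorem deg_FF (i : ℕ) : (FF p l u i).natDegree < 20 := by
  have hq : (qq p).natDegree ≤ 2 := by unfold qq; compute_degree
  have hT : (Tn u).natDegree ≤ 2 := by unfold Tn; compute_degree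
  have hS : (Sp p l).natDegree ≤ 4 := by unfold Sp; compute_degree
  have hD : (Dn p l u).natDegree ≤ 6 := by
    unfold Dn
    refine (natDegree_sub_le _ _).trans (max_le ?_ (by omega))
    exact (natDegree_mul_le).trans (by omega)
  match i with
  | 0 => exact lt_of_le_of_lt (natDegree_pow_le) (by omega)
  | 1 => exact lt_of_le_of_lt (natDegree_mul_le) (by omega)
  | 2 => exact lt_of_le_of_lt (natDegree_mul_le) (by omega)
  | 3 => exact lt_of_le_of_lt (natDegree_mul_le) (by omega)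
  | 4 => exact lt_of_le_of_lt (natDegree_pow_le) (by omega)
  | (n+5) => exact lt_of_le_of_lt (natDegree_pow_le) (by omega)

/-- a polynomial is determined modulo `X^5` -/
theorem coeff_of_eq (F R : ℚ[X]) (c0 c1 c2 c3 c4 : ℚ)
    (h : F = C c0 + C c1 * X + C c2 * X ^ 2 + C c3 * X ^ 3 + C c4 * X ^ 4 + X ^ 5 * R) (j : ℕ)
    (hj : j < 5) : F.coeff j = (![c0, c1, c2, c3, c4] : Fin 5 → ℚ) ⟨j, hj⟩ := by
  have hR : (X ^ 5 * R).coeff j = 0 := by
    rw [coeff_X_pow_mul', if_neg (by omega)]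
  rw [h, coeff_add, hR, add_zero]
  simp only [coeff_add, coeff_C_mul, coeff_X_pow, coeff_C, coeff_X]
  interval_cases j <;> simp


theorem c0 (j : ℕ) (hj : j < 5) : (FF p l u 0).coeff j =
    (![1, 0, -(2 * p), 0, p ^ 2] : Fin 5 → ℚ) ⟨j, hj⟩ := by
  refine coeff_of_eq _ 0 _ _ _ _ _ ?_ j hj
  simp only [FF, qq, map_neg, map_mul, map_pow, map_ofNat, map_one, map_zero]
  ring

theorem c1 (j : ℕ) (hj : j < 5) : (FF p l u 1).coeff j =
    (![0, 1, u, -p, -(u * p)] : Fin 5 → ℚ) ⟨j, hj⟩ := by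
  refine coeff_of_eq _ 0 _ _ _ _ _ ?_ j hj
  simp only [FF, qq, Tn, map_neg, map_mul, map_pow, map_ofNat, map_one, map_zero]
  ring

theorem c2 (j : ℕ) (hj : j < 5) : (FF p l u 2).coeff j =
    (![0, 0, 1 + p - u, 2 * p, p * (1 + p) - l - (1 + p - u) * p] : Fin 5 → ℚ) ⟨j, hj⟩ := by
  refine coeff_of_eq _ (-(5 * C p ^ 2) + (-(2 * C p * (2 * C p * (1 + C p) - C l))
    + C p ^ 2 * (1 + C p)) * X + 3 * C p ^ 3 * X ^ 2
    + C p ^ 2 * (2 * C p * (1 + C p) - C l) * X ^ 3) _ _ _ _ _ ?_ j hj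
  simp only [FF, qq, Tn, Dn, Sp, map_neg, map_mul, map_pow, map_ofNat, map_one, map_zero,
    map_add, map_sub]
  ring

theorem c3 (j : ℕ) (hj : j < 5) : (FF p l u 3).coeff j =
    (![0, 0, 0, 1 + p - u, 2 * p + u * (1 + p - u)] : Fin 5 → ℚ) ⟨j, hj⟩ := by
  refine coeff_of_eq _ ((C p * (1 + C p) - C l + 2 * C u * C p)
    + (-(3 * C p ^ 2) + C u * (C p * (1 + C p) - C l)) * X
    + (-(C p * (2 * C p * (1 + C p) - C l)) - 3 * C u * C p ^ 2) * X ^ 2
    + (-(C u * C p * (2 * C p * (1 + C p) - C l))) * X ^ 3) _ _ _ _ _ ?_ j hj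
  simp only [FF, qq, Tn, Dn, Sp, map_neg, map_mul, map_pow, map_ofNat, map_one, map_zero,
    map_add, map_sub]
  ring

theorem c4 (j : ℕ) (hj : j < 5) : (FF p l u 4).coeff j =
    (![0, 0, 0, 0, (1 + p - u) ^ 2] : Fin 5 → ℚ) ⟨j, hj⟩ := by
  set d2 : ℚ[X] := 1 + C p - C u
  set d4 : ℚ[X] := C p * (1 + C p) - C l
  set s4 : ℚ[X] := 2 * C p * (1 + C p) - C l
  refine coeff_of_eq _ (4 * d2 * C p + (4 * C p ^ 2 + 2 * d2 * d4) * X
    + (4 * C p * d4 - 6 * d2 * C p ^ 2) * X ^ 2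
    + (d4 ^ 2 - 12 * C p ^ 3 - 2 * d2 * C p * s4) * X ^ 3
    + (-(6 * C p ^ 2 * d4) - 4 * C p ^ 2 * s4) * X ^ 4
    + (9 * C p ^ 4 - 2 * d4 * C p * s4) * X ^ 5
    + 6 * C p ^ 3 * s4 * X ^ 6 + C p ^ 2 * s4 ^ 2 * X ^ 7) _ _ _ _ _ ?_ j hj
  simp only [FF, qq, Tn, Dn, Sp, map_neg, map_mul, map_pow, map_ofNat, map_one, map_zero,
    map_add, map_sub, d2, d4, s4]
  ring

theorem c5 (j : ℕ) (hj : j < 5) : (FF p l u 5).coeff j =
    (![0, 0, 1, 2 * u, u ^ 2] : Fin 5 → ℚ) ⟨j, hj⟩ := by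
  refine coeff_of_eq _ 0 _ _ _ _ _ ?_ j hj
  simp only [FF, Tn, map_neg, map_mul, map_pow, map_ofNat, map_one, map_zero]
  ring

variable (a : ℕ → ℕ → ℚ)

/-- the matrix of the coordinates -/
noncomputable def Nm : Matrix (Fin 5) (Fin 5) ℚ[X] :=
  Matrix.of fun j i => cf a (FF p l u i) j
/-- the right-hand side -/
noncomputable def bm : Fin 5 → ℚ[X] := fun j => cf a (FF p l u 5) j
/-- Cramer's solution -/
noncomputable def Z : Fin 5 → ℚ[X] := (Nm p l u a).cramer (bm p l u a)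
/-- the determinant -/
noncomputable def W : ℚ[X] := (Nm p l u a).det

theorem cram (j : Fin 5) (k : ℚ) :
    ∑ i : Fin 5, (cf a (FF p l u i) j).eval k * (Z p l u a i).eval k =
      (W p l u a).eval k * (cf a (FF p l u 5) j).eval k := by
  have h := congrFun (Matrix.mulVec_cramer (Nm p l u a) (bm p l u a)) j
  have h2 := congrArg (Polynomial.eval k) h
  simpa [Matrix.mulVec, dotProduct, Nm, bm, eval_finsetSum, Z, W] using h2

theorem main_rel {K : Type*} [Field K] [CharZero K] (x : K)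
    (ha : ∀ n, x ^ n = ∑ j ∈ Finset.range 5, (a n j : K) * x ^ j)
    (ha' : ∀ n j, n < 5 → a n j = if n = j then 1 else 0) (k : ℚ) :
    (((W p l u a).eval k : ℚ) : K) * aeval ((k : K) * x) (FF p l u 5) =
      ∑ i : Fin 5, (((Z p l u a i).eval k : ℚ) : K) * aeval ((k : K) * x) (FF p l u i) := by
  have e : ∀ i, aeval ((k : K) * x) (FF p l u i) =
      ∑ j : Fin 5, (((cf a (FF p l u i) j).eval k : ℚ) : K) * ((k : K) * x) ^ (j : ℕ) := by
    intro i
    rw [cf_spec x a ha ha' _ (deg_FF p l u i) k, Finset.sum_range]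
  simp only [e, Finset.mul_sum]
  rw [Finset.sum_comm]
  refine Finset.sum_congr rfl fun j _ => ?_
  have h := congrArg (fun r : ℚ => (r : K)) (cram p l u a j k)
  simp only [Rat.cast_sum, Rat.cast_mul] at h
  rw [← mul_assoc, ← h, Finset.sum_mul]
  exact Finset.sum_congr rfl fun i _ => by ring


/-- the matrix at `0` -/
theorem W_zero (ha' : ∀ n j, n < 5 → a n j = if n = j then 1 else 0) :
    (W p l u a).eval 0 = (1 + p - u) ^ 4 := by
  have h : (W p l u a).eval 0 =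
      ((Nm p l u a).map (Polynomial.eval 0)).det := by
    have := RingHom.map_det (Polynomial.evalRingHom (0:ℚ)) (Nm p l u a)
    simpa [W] using this
  rw [h]
  have e : ((Nm p l u a).map (Polynomial.eval 0)) =
      !![1, 0, 0, 0, 0; 0, 1, 0, 0, 0; -(2 * p), u, 1 + p - u, 0, 0;
        0, -p, 2 * p, 1 + p - u, 0;
        p ^ 2, -(u * p), p * (1 + p) - l - (1 + p - u) * p, 2 * p + u * (1 + p - u),
        (1 + p - u) ^ 2] := by
    ext j i
    simp only [Matrix.map_apply, Nm, Matrix.of_apply]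
    rw [cf_zero a ha' _ _ j.2]
    fin_cases i
    · rw [show ((⟨0, by norm_num⟩ : Fin 5) : ℕ) = 0 from rfl, c0 p l u j j.2]
      fin_cases j <;> rfl
    · rw [show ((⟨1, by norm_num⟩ : Fin 5) : ℕ) = 1 from rfl, c1 p l u j j.2]
      fin_cases j <;> rfl
    · rw [show ((⟨2, by norm_num⟩ : Fin 5) : ℕ) = 2 from rfl, c2 p l u j j.2]
      fin_cases j <;> rfl
    · rw [show ((⟨3, by norm_num⟩ : Fin 5) : ℕ) = 3 from rfl, c3 p l u j j.2]
      fin_cases j <;> rfl
    · rw [show ((⟨4, by norm_num⟩ : Fin 5) : ℕ) = 4 from rfl, c4 p l u j j.2]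
      fin_cases j <;> rfl
  rw [e]
  simp [Matrix.det_succ_row_zero, Fin.sum_univ_succ, Fin.succAbove]
  ring

theorem Z_zero (ha' : ∀ n j, n < 5 → a n j = if n = j then 1 else 0)
    (hup : u * (1 + p - u) = p) (hc : 1 + p - u ≠ 0) :
    (Z p l u a 3).eval 0 = 0 ∧
      (1 + p - u) ^ 3 * (Z p l u a 4).eval 0 = l * (1 + p - u) ^ 4 := by
  have h : ∀ j : Fin 5, ∑ i : Fin 5, (FF p l u i).coeff j * (Z p l u a i).eval 0 =
      (1 + p - u) ^ 4 * (FF p l u 5).coeff j := by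
    intro j
    have := cram p l u a j 0
    rw [W_zero p l u a ha', cf_zero a ha' _ _ j.2] at this
    rw [← this]
    exact Finset.sum_congr rfl fun i _ => by rw [cf_zero a ha' _ _ j.2]
  have v0 : ((0 : Fin 5) : ℕ) = 0 := rfl
  have v1 : ((1 : Fin 5) : ℕ) = 1 := rfl
  have v2 : ((2 : Fin 5) : ℕ) = 2 := rfl
  have v3 : ((3 : Fin 5) : ℕ) = 3 := rfl
  have v4 : ((4 : Fin 5) : ℕ) = 4 := rfl
  simp only [Fin.sum_univ_five, v0, v1, v2, v3, v4] at h
  set z0 := (Z p l u a 0).eval 0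
  set z1 := (Z p l u a 1).eval 0
  set z2 := (Z p l u a 2).eval 0
  set z3 := (Z p l u a 3).eval 0
  set z4 := (Z p l u a 4).eval 0
  have h0 : (1 : ℚ) * z0 + 0 * z1 + 0 * z2 + 0 * z3 + 0 * z4 = (1 + p - u) ^ 4 * 0 := by
    have := h 0
    rw [v0, c0 p l u 0 (by norm_num), c1 p l u 0 (by norm_num), c2 p l u 0 (by norm_num),
      c3 p l u 0 (by norm_num), c4 p l u 0 (by norm_num), c5 p l u 0 (by norm_num)] at this
    exact this
  have h1 : (0 : ℚ) * z0 + 1 * z1 + 0 * z2 + 0 * z3 + 0 * z4 = (1 + p - u) ^ 4 * 0 := by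
    have := h 1
    rw [v1, c0 p l u 1 (by norm_num), c1 p l u 1 (by norm_num), c2 p l u 1 (by norm_num),
      c3 p l u 1 (by norm_num), c4 p l u 1 (by norm_num), c5 p l u 1 (by norm_num)] at this
    exact this
  have h2 : -(2 * p) * z0 + u * z1 + (1 + p - u) * z2 + 0 * z3 + 0 * z4
      = (1 + p - u) ^ 4 * 1 := by
    have := h 2
    rw [v2, c0 p l u 2 (by norm_num), c1 p l u 2 (by norm_num), c2 p l u 2 (by norm_num),
      c3 p l u 2 (by norm_num), c4 p l u 2 (by norm_num), c5 p l u 2 (by norm_num)] at this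
    exact this
  have h3 : 0 * z0 + -p * z1 + (2 * p) * z2 + (1 + p - u) * z3 + 0 * z4
      = (1 + p - u) ^ 4 * (2 * u) := by
    have := h 3
    rw [v3, c0 p l u 3 (by norm_num), c1 p l u 3 (by norm_num), c2 p l u 3 (by norm_num),
      c3 p l u 3 (by norm_num), c4 p l u 3 (by norm_num), c5 p l u 3 (by norm_num)] at this
    exact this
  have h4 : p ^ 2 * z0 + -(u * p) * z1 + (p * (1 + p) - l - (1 + p - u) * p) * z2
      + (2 * p + u * (1 + p - u)) * z3 + (1 + p - u) ^ 2 * z4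
      = (1 + p - u) ^ 4 * u ^ 2 := by
    have := h 4
    rw [v4, c0 p l u 4 (by norm_num), c1 p l u 4 (by norm_num), c2 p l u 4 (by norm_num),
      c3 p l u 4 (by norm_num), c4 p l u 4 (by norm_num), c5 p l u 4 (by norm_num)] at this
    exact this
  clear h
  set c := 1 + p - u with hcdef
  have e0 : z0 = 0 := by linarith
  have e1 : z1 = 0 := by linarith
  have e2 : z2 = c ^ 3 := by
    have : c * z2 = c * c ^ 3 := by rw [e0, e1] at h2; linear_combination h2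
    exact mul_left_cancel₀ hc this
  have e3 : z3 = 0 := by
    have : c * z3 = c * 0 := by
      rw [e0, e1, e2] at h3; linear_combination h3 - 2 * c ^ 3 * (-hup)
    exact mul_left_cancel₀ hc this
  refine ⟨e3, ?_⟩
  rw [e0, e1, e2, e3] at h4
  clear_value c
  linear_combination c * h4 + c ^ 4 * u * hup + p * c ^ 4 * hcdef

end data

/-- polynomials are continuous at `0` in every topological field of characteristic `0`. -/
theorem lim_poly {R : Type*} [Field R] [CharZero R] [TopologicalSpace R] [IsTopologicalRing R]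
    (P : ℚ[X]) (k : ℕ → ℚ) (hk : Tendsto (fun n => ((k n : ℚ) : R)) atTop (𝓝 0)) :
    Tendsto (fun n => ((P.eval (k n) : ℚ) : R)) atTop (𝓝 ((P.eval 0 : ℚ) : R)) := by
  have e : ∀ r : ℚ, ((P.eval r : ℚ) : R) = (P.map (Rat.castHom R)).eval (r : R) := by
    intro r
    rw [show (r : R) = Rat.castHom R r from rfl, eval_map_apply]
    rfl
  simp only [e]
  have h := ((P.map (Rat.castHom R)).continuous.tendsto 0).comp hk
  rw [Rat.cast_zero]
  exact h

/-- the sequence -/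
noncomputable def kap (l : ℕ) (n : ℕ) : ℚ := ((l : ℚ) / (l ^ 2 + 1)) ^ n

theorem kap_ne {l : ℕ} (hl : l ≠ 0) (n : ℕ) : kap l n ≠ 0 := by
  unfold kap; positivity

theorem kap_real {l : ℕ} (hl : l ≠ 0) :
    Tendsto (fun n => ((kap l n : ℚ) : ℝ)) atTop (𝓝 0) := by
  simp only [kap, Rat.cast_pow]
  apply tendsto_pow_atTop_nhds_zero_of_abs_lt_one
  have h1 : (0:ℝ) < l := by positivity
  push_cast
  rw [abs_of_pos (by positivity), div_lt_one (by positivity)]
  nlinarith [sq_nonneg ((l:ℝ) - 1)]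

theorem kap_complex {l : ℕ} (hl : l ≠ 0) :
    Tendsto (fun n => ((kap l n : ℚ) : ℂ)) atTop (𝓝 0) := by
  have h := (Complex.continuous_ofReal.tendsto 0).comp (kap_real hl)
  rw [Complex.ofReal_zero] at h
  refine h.congr fun n => ?_
  simp

theorem kap_padic {l : ℕ} [hl : Fact l.Prime] :
    Tendsto (fun n => ((kap l n : ℚ) : ℚ_[l])) atTop (𝓝 0) := by
  simp only [kap, Rat.cast_pow]
  apply tendsto_pow_atTop_nhds_zero_of_norm_lt_one
  push_cast
  have h1 : ‖(l : ℚ_[l])‖ < 1 := Padic.norm_p_lt_one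
  have h2 : ‖(l : ℚ_[l]) ^ 2 + 1‖ = 1 := by
    have : ‖(l : ℚ_[l]) ^ 2‖ < ‖(1 : ℚ_[l])‖ := by
      rw [norm_pow, norm_one]
      exact pow_lt_one₀ (norm_nonneg _) h1 (by norm_num)
    rw [Padic.add_eq_max_of_ne this.ne, max_eq_right this.le, norm_one]
  rw [norm_div, h2, div_one]
  exact h1

/-- eventually not a square. -/
theorem not_sq {l : ℕ} [hl : Fact l.Prime] (D : ℕ → ℚ) (d : ℚ_[l])
    (hD : Tendsto (fun n => ((D n : ℚ) : ℚ_[l])) atTop (𝓝 d)) (hd : ‖d‖ = (l : ℝ)⁻¹) :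
    ∀ᶠ n in atTop, ¬ IsSquare (D n) := by
  have hl0 : (0:ℝ) < l := by exact_mod_cast hl.out.pos
  have h1 : ∀ᶠ n in atTop, ‖((D n : ℚ) : ℚ_[l]) - d‖ < ‖d‖ := by
    have := (tendsto_iff_norm_sub_tendsto_zero.mp hD)
    exact this.eventually_lt_const (by rw [hd]; positivity)
  filter_upwards [h1] with n hn hsq
  have h2 : ‖((D n : ℚ) : ℚ_[l])‖ = (l : ℝ)⁻¹ := by
    have e : ((D n : ℚ) : ℚ_[l]) = (((D n : ℚ) : ℚ_[l]) - d) + d := by ring
    rw [e, Padic.add_eq_max_of_ne hn.ne, max_eq_right hn.le, hd]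
  obtain ⟨r, hr⟩ := hsq
  have hr0 : (r : ℚ_[l]) ≠ 0 := by
    intro h
    rw [hr, Rat.cast_mul, h, mul_zero, norm_zero] at h2
    exact absurd h2 (by positivity)
  rw [hr, Rat.cast_mul, norm_mul, Padic.norm_eq_zpow_neg_valuation hr0, ← zpow_add₀ hl0.ne',
    ← zpow_neg_one] at h2
  have h3 := zpow_right_injective₀ hl0 (by
    intro h; have : l = 1 := by exact_mod_cast h
    exact hl.out.one_lt.ne' this) h2
  omega

section final
variable {K : Type*} [Field K] [NumberField K]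

/-- a rational multiple of `z` is close to `x` in all embeddings. -/
def Near (x : K) (eps : ℝ) (z : K) : Prop :=
  ∃ c : ℚ, c ≠ 0 ∧ ∀ φ : K →+* ℂ, ‖φ ((c : K) * z) - φ x‖ < eps

/-- `t`, `s` lie on the same side of a hyperbola. -/
def Edge (x : K) (eps : ℝ) (t s : K) : Prop :=
  ∃ al be ga de ep ze a b : ℚ,
    (al : K) * t ^ 2 + be * (t * s) + ga * s ^ 2 + de * t + ep * s + ze = 0 ∧
    0 < al * ga ∧ 0 < be ^ 2 - 4 * al * ga ∧ ¬ IsSquare (be ^ 2 - 4 * al * ga) ∧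
    al * (al * b ^ 2 - be * a * b + ga * a ^ 2) < 0 ∧
    Near x eps (a * t + b * s) ∧ Near x eps (al * b * t + ga * a * s)

theorem near_of_lim (x : K) (eps : ℝ) (heps : 0 < eps) (kp : ℕ → ℚ) (hkp : ∀ n, kp n ≠ 0)
    (τ σ : ℕ → K) (hτ : ∀ φ : K →+* ℂ, Tendsto (fun n => φ (τ n) / (kp n : ℂ)) atTop (𝓝 (φ x)))
    (hσ : ∀ φ : K →+* ℂ, Tendsto (fun n => φ (σ n) / (kp n : ℂ)) atTop (𝓝 (φ x)))
    (A B : ℕ → ℚ) (A0 B0 : ℝ) (hA : Tendsto (fun n => ((A n : ℚ) : ℝ)) atTop (𝓝 A0))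
    (hB : Tendsto (fun n => ((B n : ℚ) : ℝ)) atTop (𝓝 B0)) (h0 : A0 + B0 ≠ 0) :
    ∀ᶠ n in atTop, Near x eps ((A n : K) * τ n + B n * σ n) := by
  have hA' : Tendsto (fun n => ((A n : ℚ) : ℂ)) atTop (𝓝 (A0 : ℂ)) := by
    refine ((Complex.continuous_ofReal.tendsto A0).comp hA).congr fun n => ?_
    simp
  have hB' : Tendsto (fun n => ((B n : ℚ) : ℂ)) atTop (𝓝 (B0 : ℂ)) := by
    refine ((Complex.continuous_ofReal.tendsto B0).comp hB).congr fun n => ?_
    simp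
  have h0' : ((A0 : ℂ) + B0) ≠ 0 := by exact_mod_cast h0
  have e1 : ∀ᶠ n in atTop, ((A n : ℚ) : ℝ) + (B n : ℚ) ≠ 0 := (hA.add hB).eventually_ne h0
  have key : ∀ φ : K →+* ℂ, ∀ᶠ n in atTop,
      ‖φ ((((A n + B n) * kp n)⁻¹ : ℚ) * ((A n : K) * τ n + B n * σ n)) - φ x‖ < eps := by
    intro φ
    have h1 : Tendsto (fun n => ((A n : ℚ) : ℂ) * (φ (τ n) / (kp n : ℂ))
        + ((B n : ℚ) : ℂ) * (φ (σ n) / (kp n : ℂ))) atTop (𝓝 ((A0 : ℂ) * φ x + B0 * φ x)) :=
      (hA'.mul (hτ φ)).add (hB'.mul (hσ φ))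
    have h2 := h1.div (hA'.add hB') h0'
    have h3 : ((A0 : ℂ) * φ x + B0 * φ x) / (A0 + B0) = φ x := by
      field_simp
    rw [h3] at h2
    have h4 := (tendsto_iff_norm_sub_tendsto_zero.mp h2).eventually_lt_const heps
    filter_upwards [h4, e1] with n hn hne
    have hne' : ((A n : ℚ) : ℂ) + (B n : ℚ) ≠ 0 := by
      intro h
      apply hne
      exact_mod_cast h
    have hk : ((kp n : ℚ) : ℂ) ≠ 0 := by exact_mod_cast hkp n
    refine lt_of_eq_of_lt ?_ hn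
    congr 2
    simp only [map_mul, map_add, map_ratCast, Pi.div_apply]
    push_cast
    field_simp
  filter_upwards [eventually_all.mpr key, e1] with n hn hne
  refine ⟨((A n + B n) * kp n)⁻¹, ?_, hn⟩
  have : A n + B n ≠ 0 := by
    intro h; apply hne; exact_mod_cast h
  exact inv_ne_zero (mul_ne_zero this (hkp n))

/-- the two points `t`, `t'`. -/
def tt (p u : ℚ) (Y : K) : K := (Y + u * Y ^ 2) / (1 - p * Y ^ 2)
/-- the point `s`. -/
def ss (p l : ℚ) (Y : K) : K :=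
  Y + (1 + p) * Y ^ 2 + 3 * p * Y ^ 3 + (2 * p * (1 + p) - l) * Y ^ 4

theorem lim_tt (x : K) (p u : ℚ) (kp : ℕ → ℚ) (hkp : ∀ n, kp n ≠ 0)
    (hk : Tendsto (fun n => ((kp n : ℚ) : ℂ)) atTop (𝓝 0)) (φ : K →+* ℂ) :
    Tendsto (fun n => φ (tt p u ((kp n : K) * x)) / (kp n : ℂ)) atTop (𝓝 (φ x)) := by
  have h1 : Tendsto (fun k : ℂ => (φ x + u * k * φ x ^ 2) / (1 - p * k ^ 2 * φ x ^ 2))
      (𝓝 0) (𝓝 ((φ x + u * 0 * φ x ^ 2) / (1 - p * 0 ^ 2 * φ x ^ 2))) := by
    apply ContinuousAt.tendsto (f := fun k : ℂ => (φ x + u * k * φ x ^ 2) /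
      (1 - p * k ^ 2 * φ x ^ 2))
    apply ContinuousAt.div (by fun_prop) (by fun_prop)
    simp
  have h2 := h1.comp hk
  have e0 : (φ x + u * 0 * φ x ^ 2) / (1 - (p : ℂ) * 0 ^ 2 * φ x ^ 2) = φ x := by simp
  rw [e0] at h2
  refine h2.congr fun n => ?_
  have hk0 : ((kp n : ℚ) : ℂ) ≠ 0 := by exact_mod_cast hkp n
  simp only [Function.comp_apply, tt, map_div₀, map_add, map_mul, map_sub, map_pow, map_one,
    map_ratCast]
  rw [div_right_comm]
  congr 1
  · field_simp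
  · ring

theorem lim_ss (x : K) (p l : ℚ) (kp : ℕ → ℚ) (hkp : ∀ n, kp n ≠ 0)
    (hk : Tendsto (fun n => ((kp n : ℚ) : ℂ)) atTop (𝓝 0)) (φ : K →+* ℂ) :
    Tendsto (fun n => φ (ss p l ((kp n : K) * x)) / (kp n : ℂ)) atTop (𝓝 (φ x)) := by
  have h1 : Tendsto (fun k : ℂ => φ x + (1 + p) * k * φ x ^ 2 + 3 * p * k ^ 2 * φ x ^ 3
      + (2 * p * (1 + p) - l) * k ^ 3 * φ x ^ 4)
      (𝓝 0) (𝓝 (φ x + (1 + p) * 0 * φ x ^ 2 + 3 * p * 0 ^ 2 * φ x ^ 3
      + (2 * p * (1 + p) - l) * 0 ^ 3 * φ x ^ 4)) := by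
    apply ContinuousAt.tendsto (f := fun k : ℂ => φ x + (1 + p) * k * φ x ^ 2
      + 3 * p * k ^ 2 * φ x ^ 3 + (2 * p * (1 + p) - l) * k ^ 3 * φ x ^ 4)
    fun_prop
  have h2 := h1.comp hk
  have e0 : φ x + (1 + (p : ℂ)) * 0 * φ x ^ 2 + 3 * p * 0 ^ 2 * φ x ^ 3
      + (2 * p * (1 + p) - l) * 0 ^ 3 * φ x ^ 4 = φ x := by simp
  rw [e0] at h2
  refine h2.congr fun n => ?_
  have hk0 : ((kp n : ℚ) : ℂ) ≠ 0 := by exact_mod_cast hkp n
  simp only [Function.comp_apply, ss, map_add, map_mul, map_sub, map_pow, map_one,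
    map_ratCast, map_ofNat]
  field_simp

theorem alg {K : Type*} [Field K] (Wk Z0 Z1 Z2 Z3 Z4 q T S : K) (hW : Wk ≠ 0) (hq : q ≠ 0)
    (h : Wk * T ^ 2 = Z0 * q ^ 2 + Z1 * (T * q) + Z2 * ((S * q - T) * q)
      + Z3 * (T * (S * q - T)) + Z4 * (S * q - T) ^ 2) :
    (1 + Z3 / Wk - Z4 / Wk) * (T / q) ^ 2 + (-(Z3 / Wk) + 2 * (Z4 / Wk)) * (T / q * S)
      + (-(Z4 / Wk)) * S ^ 2 + (-(Z1 / Wk) + Z2 / Wk) * (T / q) + (-(Z2 / Wk)) * S
      + (-(Z0 / Wk)) = 0 := by
  field_simp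
  linear_combination h

theorem edge_ev (hd : Module.finrank ℚ K = 5) (x : K) (eps : ℝ) (heps : 0 < eps) (p : ℚ)
    (l : ℕ) [hl : Fact l.Prime] (hl2 : l ≠ 2) (u c : ℚ) (hcdef : 1 + p - u = c)
    (hup : u * c = p) (hc : 1 ≤ c) (hcl : c ^ 3 < l) (hcn : ‖(c : ℚ_[l])‖ = 1) :
    ∀ᶠ n in atTop, Edge x eps (tt p u ((kap l n : K) * x)) (ss p l ((kap l n : K) * x)) := by
  obtain ⟨a, ha, ha'⟩ := coords hd x
  have hl0 : l ≠ 0 := hl.out.ne_zero
  have hc0 : (1 + p - u) ≠ 0 := by rw [hcdef]; linarith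
  have hW0 := W_zero p l u a ha'
  obtain ⟨hZ3, hZ4⟩ := Z_zero p l u a ha' (by rw [hcdef]; exact hup) hc0
  rw [hcdef] at hW0 hZ4
  have hcpos : 0 < c := by linarith
  have hZ4' : (Z p l u a 4).eval 0 = l * c := by
    have : c ^ 3 * (Z p l u a 4).eval 0 = c ^ 3 * (l * c) := by rw [hZ4]; ring
    exact mul_left_cancel₀ (by positivity) this
  set w : ℚ := l / c ^ 3 with hw
  have hw1 : 1 < w := by rw [hw, lt_div_iff₀ (by positivity)]; linarith
  have hwl : w ≤ l := by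
    rw [hw]; apply div_le_self (by positivity)
    exact one_le_pow₀ hc
  -- the two limits
  have lims : ∀ (R : Type) [Field R] [CharZero R] [TopologicalSpace R] [IsTopologicalRing R]
      [ContinuousInv₀ R] [T1Space R], Tendsto (fun n => ((kap l n : ℚ) : R)) atTop (𝓝 0) →
      (∀ i : Fin 5, Tendsto (fun n => (((Z p l u a i).eval (kap l n) / (W p l u a).eval (kap l n)
        : ℚ) : R)) atTop (𝓝 (((Z p l u a i).eval 0 / c ^ 4 : ℚ) : R))) := by
    intro R _ _ _ _ _ _ hk i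
    have h1 := (lim_poly (Z p l u a i) _ hk).div (lim_poly (W p l u a) _ hk)
      (by rw [hW0]; exact_mod_cast (by positivity : c ^ 4 ≠ 0))
    rw [hW0] at h1
    simp only [Rat.cast_div] at h1 ⊢
    exact h1
  set z : Fin 5 → ℕ → ℚ := fun i n => (Z p l u a i).eval (kap l n) / (W p l u a).eval (kap l n)
    with hz
  have hkR := kap_real hl0
  have hkC := kap_complex hl0
  have hkP := kap_padic (l := l)
  have hlim3 : (Z p l u a 3).eval 0 / c ^ 4 = 0 := by rw [hZ3, zero_div]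
  have hlim4 : (Z p l u a 4).eval 0 / c ^ 4 = w := by
    rw [hZ4', hw]; field_simp
  have R3 : Tendsto (fun n => ((z 3 n : ℚ) : ℝ)) atTop (𝓝 0) := by
    have := lims ℝ hkR 3
    rw [hlim3, Rat.cast_zero] at this
    exact this
  have R4 : Tendsto (fun n => ((z 4 n : ℚ) : ℝ)) atTop (𝓝 (w : ℝ)) := by
    have := lims ℝ hkR 4
    rw [hlim4] at this
    exact this
  have P3 : Tendsto (fun n => ((z 3 n : ℚ) : ℚ_[l])) atTop (𝓝 0) := by
    have := lims ℚ_[l] hkP 3
    rw [hlim3, Rat.cast_zero] at this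
    exact this
  have P4 : Tendsto (fun n => ((z 4 n : ℚ) : ℚ_[l])) atTop (𝓝 ((w : ℚ) : ℚ_[l])) := by
    have := lims ℚ_[l] hkP 4
    rw [hlim4] at this
    exact this
  set al : ℕ → ℚ := fun n => 1 + z 3 n - z 4 n with hal
  set be : ℕ → ℚ := fun n => -z 3 n + 2 * z 4 n with hbe
  set ga : ℕ → ℚ := fun n => -z 4 n with hga
  have Ral : Tendsto (fun n => ((al n : ℚ) : ℝ)) atTop (𝓝 (1 - w)) := by
    have := (tendsto_const_nhds (x := (1:ℝ))).add R3 |>.sub R4
    simp only [add_zero] at this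
    refine this.congr fun n => ?_
    simp [hal]
  have Rbe : Tendsto (fun n => ((be n : ℚ) : ℝ)) atTop (𝓝 (2 * w)) := by
    have := R3.neg.add (R4.const_mul 2)
    simp only [neg_zero, zero_add] at this
    refine this.congr fun n => ?_
    simp [hbe]
  have Rga : Tendsto (fun n => ((ga n : ℚ) : ℝ)) atTop (𝓝 (-w)) := by
    refine R4.neg.congr fun n => ?_
    simp [hga]
  have RD : Tendsto (fun n => ((be n ^ 2 - 4 * al n * ga n : ℚ) : ℝ)) atTop (𝓝 (4 * w)) := by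
    have := (Rbe.pow 2).sub ((Ral.const_mul 4).mul Rga)
    have e : ((2:ℝ) * w) ^ 2 - 4 * (1 - w) * -w = 4 * w := by ring
    rw [e] at this
    refine this.congr fun n => ?_
    push_cast; ring
  have PD : Tendsto (fun n => ((be n ^ 2 - 4 * al n * ga n : ℚ) : ℚ_[l])) atTop
      (𝓝 (4 * ((w : ℚ) : ℚ_[l]))) := by
    have := (P3.pow 2).add (P4.const_mul 4)
    have e : (0 : ℚ_[l]) ^ 2 + 4 * ((w : ℚ) : ℚ_[l]) = 4 * ((w : ℚ) : ℚ_[l]) := by ring
    rw [e] at this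
    refine this.congr fun n => ?_
    simp only [hal, hbe, hga]
    push_cast; ring
  have hnorm : ‖4 * ((w : ℚ) : ℚ_[l])‖ = (l : ℝ)⁻¹ := by
    rw [hw]
    push_cast
    rw [norm_mul, norm_div, norm_pow, hcn, Padic.norm_p, one_pow, div_one]
    have : ‖(4 : ℚ_[l])‖ = 1 := by
      have h4 : ((4 : ℕ) : ℚ_[l]) = 4 := by norm_num
      rw [← h4, Padic.norm_natCast_eq_one_iff]
      have : Nat.Coprime l 2 := (Nat.coprime_primes hl.out Nat.prime_two).mpr hl2
      have h := Nat.Coprime.pow_right 2 this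
      norm_num at h
      exact h
    rw [this, one_mul]
  have hw1R : (1:ℝ) < (w : ℝ) := by exact_mod_cast hw1
  have hwlR : (w:ℝ) ≤ l := by exact_mod_cast hwl
  have hl1 : (2:ℝ) ≤ l := by exact_mod_cast hl.out.two_le
  -- the constants
  set A : ℚ := -((l : ℚ) + 1) with hA
  set B : ℚ := (l : ℚ) with hB
  have E1 : ∀ᶠ n in atTop, 0 < al n * ga n := by
    have h := Ral.mul Rga
    have : (0:ℝ) < (1 - w) * -w := by nlinarith
    filter_upwards [h.eventually_const_lt this] with n hn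
    exact_mod_cast hn
  have E2 : ∀ᶠ n in atTop, 0 < be n ^ 2 - 4 * al n * ga n := by
    have : (0:ℝ) < 4 * w := by linarith
    filter_upwards [RD.eventually_const_lt this] with n hn
    exact_mod_cast hn
  have E3 : ∀ᶠ n in atTop, ¬ IsSquare (be n ^ 2 - 4 * al n * ga n) :=
    not_sq _ _ PD hnorm
  have E4 : ∀ᶠ n in atTop, al n * (al n * B ^ 2 - be n * A * B + ga n * A ^ 2) < 0 := by
    have h := Ral.mul (((Ral.mul_const ((B:ℝ) ^ 2)).sub ((Rbe.mul_const (A:ℝ)).mul_const (B:ℝ))).add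
      (Rga.mul_const ((A:ℝ) ^ 2)))
    have e : (1 - (w:ℝ)) * ((1 - w) * (B:ℝ) ^ 2 - 2 * w * A * B + -w * (A:ℝ) ^ 2)
        = (1 - w) * ((l:ℝ) ^ 2 - w) := by
      rw [hA, hB]; push_cast; ring
    rw [e] at h
    have : (1 - (w:ℝ)) * ((l:ℝ) ^ 2 - w) < 0 := by
      have : (0:ℝ) < (l:ℝ) ^ 2 - w := by nlinarith
      nlinarith
    filter_upwards [h.eventually_lt_const this] with n hn
    have : ((al n * (al n * B ^ 2 - be n * A * B + ga n * A ^ 2) : ℚ) : ℝ) < 0 := by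
      push_cast at hn ⊢; exact hn
    exact_mod_cast this
  have Lt := lim_tt x p u (kap l) (kap_ne hl0) hkC
  have Ls := lim_ss x p l (kap l) (kap_ne hl0) hkC
  have E5 := near_of_lim x eps heps (kap l) (kap_ne hl0) _ _ Lt Ls (fun _ => A) (fun _ => B)
    (A:ℝ) (B:ℝ) tendsto_const_nhds tendsto_const_nhds (by rw [hA, hB]; push_cast; intro h; linarith)
  have E6 := near_of_lim x eps heps (kap l) (kap_ne hl0) _ _ Lt Ls (fun n => al n * B)
    (fun n => ga n * A) ((1 - w) * B) (-w * A)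
    (by simpa only [Rat.cast_mul] using Ral.mul_const (B:ℝ))
    (by simpa only [Rat.cast_mul] using Rga.mul_const (A:ℝ))
    (by rw [hA, hB]; push_cast; intro h; nlinarith)
  have E7 : ∀ᶠ n in atTop, (W p l u a).eval (kap l n) ≠ 0 := by
    have h := lim_poly (R := ℝ) (W p l u a) _ hkR
    rw [hW0] at h
    have : ((c ^ 4 : ℚ) : ℝ) ≠ 0 := by exact_mod_cast (by positivity : c ^ 4 ≠ 0)
    filter_upwards [h.eventually_ne this] with n hn
    intro h0; apply hn; rw [h0]; simp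
  have E8 : ∀ᶠ n in atTop, (1 - (p : K) * ((kap l n : K) * x) ^ 2) ≠ 0 := by
    obtain ⟨φ⟩ : Nonempty (K →+* ℂ) := inferInstance
    have h : Tendsto (fun n => 1 - (p : ℂ) * ((kap l n : ℂ) * φ x) ^ 2) atTop
        (𝓝 (1 - (p : ℂ) * (0 * φ x) ^ 2)) :=
      tendsto_const_nhds.sub (((hkC.mul_const _).pow 2).const_mul _)
    have e : 1 - (p : ℂ) * (0 * φ x) ^ 2 = 1 := by simp
    rw [e] at h
    filter_upwards [h.eventually_ne one_ne_zero] with n hn
    intro h0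
    apply hn
    have := congrArg φ h0
    simpa using this
  filter_upwards [E1, E2, E3, E4, E5, E6, E7, E8] with n e1 e2 e3 e4 e5 e6 e7 e8
  refine ⟨al n, be n, ga n, -z 1 n + z 2 n, -z 2 n, -z 0 n, A, B, ?_, e1, e2, e3, e4, e5, ?_⟩
  · have hrel := main_rel p l u a x ha ha' (kap l n)
    set Y : K := (kap l n : K) * x with hY
    have v0 : ((0 : Fin 5) : ℕ) = 0 := rfl
    have v1 : ((1 : Fin 5) : ℕ) = 1 := rfl
    have v2 : ((2 : Fin 5) : ℕ) = 2 := rfl
    have v3 : ((3 : Fin 5) : ℕ) = 3 := rfl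
    have v4 : ((4 : Fin 5) : ℕ) = 4 := rfl
    have aq : aeval Y (qq p) = 1 - (p : K) * Y ^ 2 := by
      simp only [qq, map_sub, map_mul, map_pow, aeval_X, aeval_C, map_one]; rfl
    have aT : aeval Y (Tn u) = Y + (u : K) * Y ^ 2 := by
      simp only [Tn, map_add, map_mul, map_pow, aeval_X, aeval_C]; rfl
    have aS : aeval Y (Sp p l) = ss p l Y := by
      simp only [Sp, ss, map_add, map_sub, map_mul, map_pow, aeval_X, aeval_C, map_one,
        map_ofNat, map_natCast, Rat.cast_natCast]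
      rfl
    have aD : aeval Y (Dn p l u) = aeval Y (Sp p l) * aeval Y (qq p) - aeval Y (Tn u) := by
      simp only [Dn, map_sub, map_mul]
    rw [Fin.sum_univ_five, v0, v1, v2, v3, v4] at hrel
    simp only [FF, map_pow, map_mul, aD, aS, aT, aq] at hrel
    have hWK : (((W p l u a).eval (kap l n) : ℚ) : K) ≠ 0 := by exact_mod_cast e7
    have := alg _ _ _ _ _ _ _ _ _ hWK e8 hrel
    simp only [hal, hbe, hga, hz, tt]
    push_cast at this ⊢
    exact this
  · have := e6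
    push_cast at this ⊢
    exact this

theorem quad_bot (hd : Module.finrank ℚ K = 5) {z : K} {A B : ℚ}
    (h : (A : K) * z ^ 2 + z + B = 0) : z ∈ (⊥ : IntermediateField ℚ K) := by
  rw [← IntermediateField.finrank_adjoin_simple_eq_one_iff]
  have hz : IsIntegral ℚ z := Algebra.IsIntegral.isIntegral z
  rw [IntermediateField.adjoin.finrank hz]
  have h1 : (minpoly ℚ z).natDegree ≤ 2 := by
    have hne : (C A * X ^ 2 + C 1 * X + C B : ℚ[X]) ≠ 0 := by
      intro h0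
      have := congrArg (fun f => coeff f 1) h0
      simp [coeff_X] at this
    have h2 : aeval z (C A * X ^ 2 + C 1 * X + C B : ℚ[X]) = 0 := by
      simp only [map_add, map_mul, map_pow, aeval_X, aeval_C, map_one, one_mul]
      exact h
    exact (natDegree_le_natDegree (minpoly.degree_le_of_ne_zero ℚ z hne h2)).trans
      natDegree_quadratic_le
  have h3 : (minpoly ℚ z).natDegree ∣ 5 := by
    rw [← hd]; exact minpoly.degree_dvd hz
  rcases (Nat.dvd_prime (by norm_num : Nat.Prime 5)).1 h3 with h4 | h4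
  · exact h4
  · omega

theorem tt_bot (hd : Module.finrank ℚ K = 5) {x : K} (hx : x ∉ (⊥ : IntermediateField ℚ K))
    (p u k : ℚ) (hk : k ≠ 0) (hq : (1 - (p : K) * ((k : K) * x) ^ 2) ≠ 0) :
    tt p u ((k : K) * x) ∉ (⊥ : IntermediateField ℚ K) := by
  intro hm
  apply hx
  obtain ⟨r, hr⟩ := IntermediateField.mem_bot.1 hm
  have hr' : tt p u ((k : K) * x) = (r : K) := hr.symm
  have h1 : (k : K) * x ∈ (⊥ : IntermediateField ℚ K) := by
    apply quad_bot hd (A := u + r * p) (B := -r)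
    rw [tt, div_eq_iff hq] at hr'
    push_cast
    linear_combination hr'
  obtain ⟨v, hv⟩ := IntermediateField.mem_bot.1 h1
  have hv' : (v : K) = (k : K) * x := hv
  have hkK : (k : K) ≠ 0 := by exact_mod_cast hk
  refine IntermediateField.mem_bot.2 ⟨v / k, ?_⟩
  change ((v / k : ℚ) : K) = x
  push_cast
  rw [hv']
  field_simp

/-- **The triangle.** -/
theorem triangle (hd : Module.finrank ℚ K = 5) (x : K) (hx : x ∉ (⊥ : IntermediateField ℚ K))
    (p : ℕ) (hp : p.Prime) (eps : ℝ) (heps : 0 < eps) :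
    ∃ t t' s : K, t' ^ 2 + t' = p * t ^ 2 + t ∧ t ∉ (⊥ : IntermediateField ℚ K) ∧
      t' ∉ (⊥ : IntermediateField ℚ K) ∧
      Near x eps t ∧ Near x eps t' ∧ Near x eps s ∧ Edge x eps t s ∧ Edge x eps t' s := by
  obtain ⟨l, hlp, hlprime⟩ := Nat.exists_infinite_primes (p ^ 3 + 1)
  haveI : Fact l.Prime := ⟨hlprime⟩
  have hp2 := hp.two_le
  have hpl : p < l := by
    have : p ≤ p ^ 3 := Nat.le_self_pow (by norm_num) p
    omega
  have h8 : 8 ≤ p ^ 3 := by
    calc 8 = 2 ^ 3 := by norm_num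
      _ ≤ p ^ 3 := Nat.pow_le_pow_left hp2 3
  have hl2 : l ≠ 2 := by omega
  have hl0 : l ≠ 0 := hlprime.ne_zero
  have hnp : ‖((p : ℚ) : ℚ_[l])‖ = 1 := by
    rw [Rat.cast_natCast, Padic.norm_natCast_eq_one_iff]
    exact (Nat.coprime_primes hlprime hp).mpr (by omega)
  have h1p : (1:ℚ) ≤ p := by exact_mod_cast (by omega : 1 ≤ p)
  have A1 := edge_ev hd x eps heps (p : ℚ) l hl2 1 p (by ring) (by ring) h1p
    (by exact_mod_cast (by omega : p ^ 3 < l)) hnp
  have A2 := edge_ev hd x eps heps (p : ℚ) l hl2 p 1 (by ring) (by ring) le_rfl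
    (by rw [one_pow]; exact_mod_cast (by omega : 1 < l)) (by simp)
  have hkC := kap_complex hl0
  have Lt := lim_tt x p 1 (kap l) (kap_ne hl0) hkC
  have Lt' := lim_tt x p p (kap l) (kap_ne hl0) hkC
  have Ls := lim_ss x p l (kap l) (kap_ne hl0) hkC
  have N1 := near_of_lim x eps heps (kap l) (kap_ne hl0) _ _ Lt Ls (fun _ => 1) (fun _ => 0)
    1 0 (by simp) (by simp) (by norm_num)
  have N2 := near_of_lim x eps heps (kap l) (kap_ne hl0) _ _ Lt' Ls (fun _ => 1) (fun _ => 0)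
    1 0 (by simp) (by simp) (by norm_num)
  have N3 := near_of_lim x eps heps (kap l) (kap_ne hl0) _ _ Lt Ls (fun _ => 0) (fun _ => 1)
    0 1 (by simp) (by simp) (by norm_num)
  have E8 : ∀ᶠ n in atTop, (1 - ((p : ℚ) : K) * ((kap l n : K) * x) ^ 2) ≠ 0 := by
    obtain ⟨φ⟩ : Nonempty (K →+* ℂ) := inferInstance
    have h : Tendsto (fun n => 1 - (p : ℂ) * ((kap l n : ℂ) * φ x) ^ 2) atTop
        (𝓝 (1 - (p : ℂ) * (0 * φ x) ^ 2)) :=
      tendsto_const_nhds.sub (((hkC.mul_const _).pow 2).const_mul _)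
    have e : 1 - (p : ℂ) * (0 * φ x) ^ 2 = 1 := by simp
    rw [e] at h
    filter_upwards [h.eventually_ne one_ne_zero] with n hn
    intro h0
    apply hn
    have := congrArg φ h0
    simpa using this
  obtain ⟨n, a1, a2, n1, n2, n3, e8⟩ := (A1.and (A2.and (N1.and (N2.and (N3.and E8))))).exists
  refine ⟨_, _, _, ?_, tt_bot hd hx _ _ _ (kap_ne hl0 n) e8, tt_bot hd hx _ _ _ (kap_ne hl0 n) e8,
    ?_, ?_, ?_, a1, a2⟩
  · simp only [tt]
    simp only [Rat.cast_natCast, Rat.cast_one] at e8 ⊢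
    field_simp
    ring
  · simpa using n1
  · simpa using n2
  · simpa using n3

end final

end Pool.Agent.Lib_helper65.QUI
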